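import Pool.Agent.Lib_helper72.RB.B4

/-!
# Block B4b: the sum of `2 ^ (-|s|)` over `Sk c k` is at most `2 ^ (-k)`
-/

set_option autoImplicit false

namespace Pool.Agent.Lib_helper27.R

open Finset Classical

lemma b4b_geom (k : ℕ) : ∀ L, k ≤ L → ∑ n ∈ Finset.Ioc k L, 2 ^ (L - n) + 1 = 2 ^ (L - k) := by
  intro L hL
  induction L, hL using Nat.le_induction with
  | base => simp
  | succ L hL ih =>
    rw [← Finset.insert_Ioc_right_eq_Ioc_add_one hL, Finset.sum_insert (by simp)]
    have h1 : ∑ n ∈ Finset.Ioc k L, 2 ^ (L + 1 - n) = 2 * ∑ n ∈ Finset.Ioc k L, 2 ^ (L - n) := by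
      rw [Finset.mul_sum]
      apply Finset.sum_congr rfl
      intro n hn
      have hn' := (Finset.mem_Ioc.1 hn).2
      rw [show L + 1 - n = (L - n) + 1 by omega, pow_succ]
      ring
    rw [h1, show L + 1 - k = (L - k) + 1 by omega, pow_succ, ← ih]
    simp
    ring

lemma b4b_sum (k L : ℕ) : ∑ n ∈ Finset.Ioc k L, 2 ^ (L - n) * 2 ^ k ≤ 2 ^ L := by
  rcases le_or_gt k L with h | h
  · rw [← Finset.sum_mul]
    have h1 := b4b_geom k L h
    calc (∑ n ∈ Finset.Ioc k L, 2 ^ (L - n)) * 2 ^ k ≤ 2 ^ (L - k) * 2 ^ k := by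
          apply Nat.mul_le_mul_right
          omega
      _ = 2 ^ L := by rw [← pow_add]; congr 1; omega
  · rw [Finset.Ioc_eq_empty (by omega)]
    simp

lemma b4b_card (L n i : ℕ) (h : ∀ j < n, pr n i j < L) (hn : n ≤ L) :
    (univ.filter (fun y : Fin L → Bool => ∀ p ∈ b4_P L n i, y p = false)).card = 2 ^ (L - n) := by
  have h1 := b4_equiv (b4_P L n i) (fun _ : Fin L → Bool => True) (fun _ _ _ => Iff.rfl)
  rw [b4_P_card L n i h] at h1
  have h2 : (univ.filter (fun _ : Fin L → Bool => True)).card = 2 ^ L := by simp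
  rw [h2] at h1
  have h3 : (univ.filter (fun y : Fin L → Bool => True ∧ ∀ p ∈ b4_P L n i, y p = false)) =
      (univ.filter (fun y : Fin L → Bool => ∀ p ∈ b4_P L n i, y p = false)) := by
    ext y
    simp
  rw [h3] at h1
  have h4 : 2 ^ L = 2 ^ n * 2 ^ (L - n) := by rw [← pow_add]; congr 1; omega
  rw [h4] at h1
  exact (Nat.eq_of_mul_eq_mul_left (by positivity) h1).symm

/-- the index set -/
noncomputable def b4b_A (c : ℕ → ℕ) (k L : ℕ) : Finset ((_ : ℕ) × ((Fin L → Bool) × (Fin k → Bool))) :=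
  ((Finset.Ioc k L).filter (fun n => ∀ j < n, pr n (c n) j < L)).sigma
    (fun n => (univ.filter (fun y : Fin L → Bool => ∀ p ∈ b4_P L n (c n), y p = false)) ×ˢ
      (univ : Finset (Fin k → Bool)))

lemma b4b_A_card (c : ℕ → ℕ) (k L : ℕ) : (b4b_A c k L).card ≤ 2 ^ L := by
  unfold b4b_A
  rw [Finset.card_sigma]
  calc ∑ n ∈ (Finset.Ioc k L).filter (fun n => ∀ j < n, pr n (c n) j < L),
        ((univ.filter (fun y : Fin L → Bool => ∀ p ∈ b4_P L n (c n), y p = false)) ×ˢ
      (univ : Finset (Fin k → Bool))).card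
      = ∑ n ∈ (Finset.Ioc k L).filter (fun n => ∀ j < n, pr n (c n) j < L),
          2 ^ (L - n) * 2 ^ k := by
        apply Finset.sum_congr rfl
        intro n hn
        have hn' := Finset.mem_filter.1 hn
        rw [Finset.card_product, b4b_card L n (c n) hn'.2 (Finset.mem_Ioc.1 hn'.1).2]
        simp
    _ ≤ ∑ n ∈ Finset.Ioc k L, 2 ^ (L - n) * 2 ^ k :=
        Finset.sum_le_sum_of_subset (Finset.filter_subset _ _)
    _ ≤ 2 ^ L := b4b_sum k L

/-- B4': `∑ {2 ^ (-|s|) : s ∈ Sk c k} ≤ 2 ^ (-k)` -/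
theorem count_null (c : ℕ → ℕ) (k L : ℕ) :
    ∃ φ : List Bool × List Bool × List Bool → List Bool,
      (∀ z, Sk c k z.1 → z.2.1.length = L → z.1 <+: z.2.1 → z.2.2.length = k →
        (φ z).length = L) ∧
      Set.InjOn φ {z | Sk c k z.1 ∧ z.2.1.length = L ∧ z.1 <+: z.2.1 ∧ z.2.2.length = k} := by
  obtain ⟨g⟩ : Nonempty ((b4b_A c k L) ↪ (Fin L → Bool)) := by
    apply Function.Embedding.nonempty_of_card_le
    rw [Fintype.card_coe]
    simpa using b4b_A_card c k L
  -- the code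
  set Z : Set (List Bool × List Bool × List Bool) :=
    {z | Sk c k z.1 ∧ z.2.1.length = L ∧ z.1 <+: z.2.1 ∧ z.2.2.length = k} with hZ
  have henc : ∀ z ∈ Z, ∃ a ∈ b4b_A c k L, z.1.length = pr a.1 (c a.1) (a.1 - 1) + 1 ∧
      (List.ofFn a.2.1 = z.2.1) ∧ (List.ofFn a.2.2 = z.2.2) := by
    rintro ⟨s, u, w⟩ ⟨⟨n, hkn, hG, hlen⟩, hu, hsu, hw⟩
    simp only at hG hlen hu hsu hw
    have hsL : s.length ≤ L := hu ▸ hsu.length_le
    have hpr : ∀ j < n, pr n (c n) j < L := by
      intro j hj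
      have h1 := hG j hj
      have h2 : pr n (c n) j < s.length := by
        by_contra hcon
        rw [List.getElem?_eq_none (by omega)] at h1
        exact absurd h1 (by simp)
      omega
    have hnL : n ≤ L := by
      have h1 : n ≤ pr n (c n) (n - 1) :=
        (Nat.left_le_pair n (c n)).trans (Nat.left_le_pair _ _)
      omega
    subst hu
    subst hw
    refine ⟨⟨n, (fun i => u.get i, fun i => w.get i)⟩, ?_, hlen, ?_, ?_⟩
    · unfold b4b_A
      rw [Finset.mem_sigma]
      refine ⟨Finset.mem_filter.2 ⟨Finset.mem_Ioc.2 ⟨hkn, hnL⟩, hpr⟩, ?_⟩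
      refine Finset.mem_product.2 ⟨Finset.mem_filter.2 ⟨mem_univ _, ?_⟩, mem_univ _⟩
      intro p hp
      obtain ⟨j, hj, h1⟩ := (Finset.mem_filter.1 hp).2
      have h2 := hG j hj
      have h3 : u[pr n (c n) j]? = some false := by
        obtain ⟨v, rfl⟩ := hsu
        have h4 : pr n (c n) j < s.length := by
          by_contra hcon
          rw [List.getElem?_eq_none (by omega)] at h2
          exact absurd h2 (by simp)
        rw [List.getElem?_append_left h4]
        exact h2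
      simp only [List.get_eq_getElem]
      rw [← h1] at h3
      rw [List.getElem?_eq_getElem p.2] at h3
      exact Option.some.inj h3
    · simp
    · simp
  choose! enc henc1 henc2 henc3 henc4 using henc
  refine ⟨fun z => if h : z ∈ Z then List.ofFn (g ⟨enc z, henc1 z h⟩) else [], ?_, ?_⟩
  · intro z h1 h2 h3 h4
    have hz : z ∈ Z := ⟨h1, h2, h3, h4⟩
    simp only [dif_pos hz]
    simp
  · intro z hz z' hz' h
    simp only [dif_pos hz, dif_pos hz'] at h
    have h1 := g.injective (List.ofFn_injective h)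
    have h2 : enc z = enc z' := congrArg Subtype.val h1
    have h3 : z.2.1 = z'.2.1 := by rw [← henc3 z hz, ← henc3 z' hz', h2]
    have h4 : z.2.2 = z'.2.2 := by rw [← henc4 z hz, ← henc4 z' hz', h2]
    have h5 : z.1.length = z'.1.length := by rw [henc2 z hz, henc2 z' hz', h2]
    have h6 : z.1 = z'.1 := by
      have h7 : z'.1 <+: z.2.1 := h3 ▸ hz'.2.2.1
      exact (List.prefix_of_prefix_length_le hz.2.2.1 h7 h5.le).eq_of_length h5
    exact Prod.ext h6 (Prod.ext h3 h4)

end Pool.Agent.Lib_helper27.R
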