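import Pool.Agent.Lib_helper27.R.PosDef

set_option autoImplicit false

namespace Pool.Agent.Lib_helper27.R

open V Q Cardinal

namespace C1

abbrev Lab : Type := ℕ → Om2

noncomputable abbrev κ : Cardinal.{0} := #Lab

theorem kappa_eq : κ = (aleph 2 : Cardinal.{0}) ^ (ℵ₀ : Cardinal.{0}) := by
  show #(ℕ → Om2) = _
  rw [← Cardinal.power_def, mk_om2, mk_nat]

theorem kappa_pow : κ ^ (ℵ₀ : Cardinal.{0}) = κ := by
  rw [kappa_eq, ← Cardinal.power_mul, Cardinal.aleph0_mul_aleph0]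

theorem le_kappa2 : (aleph 2 : Cardinal.{0}) ≤ κ := by
  rw [kappa_eq]
  exact Cardinal.self_le_power _ (Cardinal.one_le_aleph0)

theorem le_kappa1 : (aleph 1 : Cardinal.{0}) ≤ κ :=
  le_trans (Cardinal.aleph_le_aleph.2 (by norm_num)) le_kappa2

theorem le_kappa0 : (ℵ₀ : Cardinal.{0}) ≤ κ := le_trans (Cardinal.aleph0_le_aleph 2) le_kappa2

theorem prod_le {α β : Type} (hα : #α ≤ κ) (hβ : #β ≤ κ) : #(α × β) ≤ κ := by
  rw [Cardinal.mk_prod, Cardinal.lift_id, Cardinal.lift_id]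
  exact (mul_le_mul' hα hβ).trans (Cardinal.mul_eq_self le_kappa0).le

theorem finsupp_le {α β : Type} [Zero β] (hα : #α ≤ κ) (hβ : #β ≤ κ) : #(α →₀ β) ≤ κ := by
  -- a finitely supported function is given by its graph
  have hinj : Function.Injective (fun f : α →₀ β => f.graph) := Finsupp.graph_injective α β
  refine (Cardinal.mk_le_of_injective hinj).trans ?_
  have h1 : #(α × β) ≤ #Lab := prod_le hα hβ
  obtain ⟨e⟩ := Cardinal.le_def (α × β) Lab |>.1 h1
  have h2 : Function.Injective (fun s : Finset (α × β) => s.map e) := Finset.map_injective e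
  refine (Cardinal.mk_le_of_injective h2).trans ?_
  have hinf : Infinite Lab := Cardinal.infinite_iff.2 le_kappa0
  rw [Cardinal.mk_finset_of_infinite]

theorem nat_le : #ℕ ≤ κ := by rw [Cardinal.mk_nat]; exact le_kappa0

theorem om1_le : #Om1 ≤ κ := by rw [mk_om1]; exact le_kappa1

theorem om2_le : #Om2 ≤ κ := by rw [mk_om2]; exact le_kappa2

theorem finset_le : #(Finset Lab) ≤ κ := by
  have hinf : Infinite Lab := Cardinal.infinite_iff.2 le_kappa0
  rw [Cardinal.mk_finset_of_infinite]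

theorem list_le : #(List ℕ) ≤ κ := by
  refine le_trans ?_ nat_le
  rw [Cardinal.mk_nat]
  exact Cardinal.mk_le_aleph0

theorem cd_le : #(Cd Lab) ≤ κ := by
  have hinj : Function.Injective (fun d : Cd Lab => ((d.k, d.s), d.F)) := by
    intro a b h
    simp only [Prod.mk.injEq] at h
    exact Cd.ext h.1.1 h.1.2 h.2
  refine (Cardinal.mk_le_of_injective hinj).trans ?_
  exact prod_le (prod_le nat_le (finsupp_le list_le nat_le)) finset_le

theorem cnd_le : #(Cnd Om1 Om2 Lab) ≤ κ := by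
  have hinj : Function.Injective (fun p : Cnd Om1 Om2 Lab => (p.c, p.a)) := by
    intro a b h
    simp only [Prod.mk.injEq] at h
    exact Cnd.ext h.1 h.2
  refine (Cardinal.mk_le_of_injective hinj).trans ?_
  exact prod_le (finsupp_le (prod_le om1_le nat_le) nat_le) (finsupp_le om2_le cd_le)

theorem fn_le {α : Type} (hα : #α ≤ κ) : #(ℕ → α) ≤ κ := by
  rw [← Cardinal.power_def, Cardinal.mk_nat]
  calc #α ^ (ℵ₀ : Cardinal.{0}) ≤ κ ^ (ℵ₀ : Cardinal.{0}) := Cardinal.power_le_power_right hα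
    _ = κ := kappa_pow

end C1

/-- C1: there are enough labels. -/
theorem exists_labels_pr : ∃ (Lab : Type) (_ : Nonempty Lab) (E : Nms Om1 Om2 Lab),
    ∀ F : ℕ → ℕ → Cnd Om1 Om2 Lab × ℕ, ∃ e, E e = F := by
  have hne : Nonempty C1.Lab := by
    have : Infinite C1.Lab := Cardinal.infinite_iff.2 C1.le_kappa0
    infer_instance
  refine ⟨C1.Lab, hne, ?_⟩
  have h1 : #(ℕ → ℕ → Cnd Om1 Om2 C1.Lab × ℕ) ≤ #C1.Lab :=
    C1.fn_le (C1.fn_le (C1.prod_le C1.cnd_le C1.nat_le))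
  have hne2 : Nonempty (ℕ → ℕ → Cnd Om1 Om2 C1.Lab × ℕ) := ⟨fun _ _ => (⟨0, 0⟩, 0)⟩
  obtain ⟨e⟩ := Cardinal.le_def (ℕ → ℕ → Cnd Om1 Om2 C1.Lab × ℕ) C1.Lab |>.1 h1
  exact ⟨Function.invFun e, fun F => ⟨e F, Function.leftInverse_invFun e.injective F⟩⟩

end Pool.Agent.Lib_helper27.R
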