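import Pool.Agent.Lib_helper27.R.Defs

/-!
# Block B1: comb or star in the tree of the functions
-/

set_option autoImplicit false

namespace Pool.Agent.Lib_helper27.R

lemma b1_hist_succ (f : ℕ → ℕ) (n : ℕ) : hist f (n + 1) = hist f n ++ [f n] := by
  simp [hist, List.range_succ]

lemma b1_hist_length (f : ℕ → ℕ) (n : ℕ) : (hist f n).length = n := by
  simp [hist]

lemma b1_hist_eq {f g : ℕ → ℕ} {n : ℕ} : hist f n = hist g n ↔ ∀ m < n, f m = g m := by
  unfold hist
  rw [List.map_inj_left]
  simp

lemma b1_choose {ι : Type} (J : Finset ι) (f : ι → ℕ → ℕ) :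
    ∃ π : List ℕ → ℕ, ∀ i ∈ J, ∀ m, ∃ i' ∈ J, (∀ l < m, f i' l = f i l) ∧
      π (hist (f i) m) = f i' m := by
  classical
  refine ⟨fun t => if h : ∃ i ∈ J, hist (f i) t.length = t then f h.choose t.length else 0, ?_⟩
  intro i hi m
  have hex : ∃ i' ∈ J, hist (f i') (hist (f i) m).length = hist (f i) m :=
    ⟨i, hi, by rw [b1_hist_length]⟩
  refine ⟨hex.choose, hex.choose_spec.1, ?_, ?_⟩
  · rw [← b1_hist_eq]
    have h2 := hex.choose_spec.2
    have h3 : hist (f hex.choose) (hist (f i) m).length = hist (f hex.choose) m :=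
      congrArg (hist (f hex.choose)) (b1_hist_length (f i) m)
    exact h3.symm.trans h2
  · have h4 : (if h : ∃ i' ∈ J, hist (f i') (hist (f i) m).length = hist (f i) m then
        f h.choose (hist (f i) m).length else 0) = f hex.choose (hist (f i) m).length :=
      dif_pos hex
    exact h4.trans (congrArg (f hex.choose) (b1_hist_length (f i) m))

/-- star -/
lemma b1_star {ι : Type} (J : Finset ι) (f : ι → ℕ → ℕ) (n : ℕ)
    (hag : ∀ i ∈ J, ∀ i' ∈ J, ∀ m < n, f i m = f i' m)
    (hinj : ∀ i ∈ J, ∀ i' ∈ J, f i n = f i' n → i = i') :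
    ∃ π : List ℕ → ℕ, ∀ i ∈ J, OneErr π (f i) := by
  obtain ⟨π, hπ⟩ := b1_choose J f
  refine ⟨π, fun i hi => ⟨n, fun m hm => ?_⟩⟩
  obtain ⟨i', hi', h1, h2⟩ := hπ i hi m
  rw [h2]
  rcases lt_or_gt_of_ne hm with h | h
  · exact hag _ hi' _ hi m h
  · rw [hinj _ hi' _ hi (h1 n h)]

/-- comb -/
lemma b1_comb {ι : Type} (J : Finset ι) (f : ι → ℕ → ℕ) (g : ℕ → ℕ) (d : ι → ℕ)
    (hd : ∀ i ∈ J, (∀ m < d i, f i m = g m) ∧ f i (d i) ≠ g (d i))
    (hinj : ∀ i ∈ J, ∀ i' ∈ J, d i = d i' → i = i') :
    ∃ π : List ℕ → ℕ, ∀ i ∈ J, OneErr π (f i) := by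
  classical
  obtain ⟨π, hπ⟩ := b1_choose J f
  refine ⟨fun t => if hist g t.length = t then g t.length else π t, ?_⟩
  intro i hi
  refine ⟨d i, fun m hm => ?_⟩
  rcases lt_or_gt_of_ne hm with h | h
  · have h1 : hist g (hist (f i) m).length = hist (f i) m := by
      rw [b1_hist_length, b1_hist_eq]
      intro l hl
      exact ((hd i hi).1 l (by omega)).symm
    simp only [if_pos h1]
    rw [b1_hist_length]
    exact ((hd i hi).1 m h).symm
  · have h1 : ¬ hist g (hist (f i) m).length = hist (f i) m := by
      rw [b1_hist_length, b1_hist_eq]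
      intro h2
      exact (hd i hi).2 (h2 (d i) h).symm
    simp only [if_neg h1]
    obtain ⟨i', h3, h4, h5⟩ := hπ i hi m
    rw [h5]
    have h5 : d i' = d i := by
      rcases lt_trichotomy (d i') (d i) with h6 | h6 | h6
      · exfalso
        apply (hd i' h3).2
        rw [h4 (d i') (by omega)]
        exact (hd i hi).1 _ h6
      · exact h6
      · exfalso
        apply (hd i hi).2
        rw [← h4 (d i) h]
        exact (hd i' h3).1 _ h6
    rw [hinj _ h3 _ hi h5]

lemma b1_step (N : ℕ) (k : ℕ) : ∃ R : ℕ, ∀ {ι : Type} (I : Finset ι) (f : ι → ℕ → ℕ),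
    R ≤ I.card →
    (∃ J ⊆ I, N ≤ J.card ∧ ∃ π : List ℕ → ℕ, ∀ i ∈ J, OneErr π (f i)) ∨
    (∃ J ⊆ I, J.card = k ∧ ∃ i₀ ∈ I, ∃ d : ι → ℕ,
      (∀ i ∈ J, (∀ m < d i, f i m = f i₀ m) ∧ f i (d i) ≠ f i₀ (d i)) ∧
      (∀ i ∈ J, ∀ i' ∈ J, d i = d i' → i = i')) := by
  induction k with
  | zero =>
    refine ⟨1, fun {ι} I f hI => Or.inr ⟨∅, by simp, by simp, ?_⟩⟩
    obtain ⟨i₀, hi₀⟩ := Finset.card_pos.1 (by omega : 0 < I.card)
    exact ⟨i₀, hi₀, fun _ => 0, by simp, by simp⟩
  | succ k ih =>
    obtain ⟨R, hR⟩ := ih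
    refine ⟨N + N * R, fun {ι} I f hI => ?_⟩
    classical
    by_cases hall : ∀ n, ∀ i ∈ I, ∀ i' ∈ I, f i n = f i' n
    · -- all equal
      left
      refine ⟨I, Finset.Subset.refl _, by omega, ?_⟩
      obtain ⟨π, hπ⟩ := b1_choose I f
      refine ⟨π, fun i hi => ⟨0, fun m _ => ?_⟩⟩
      obtain ⟨i', hi', _, h2⟩ := hπ i hi m
      rw [h2]
      exact hall m _ hi' _ hi
    · push Not at hall
      set n := Nat.find hall with hn
      obtain ⟨i1, hi1, i2, hi2, hne⟩ := Nat.find_spec hall
      rw [← hn] at hne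
      have hmin : ∀ m < n, ∀ i ∈ I, ∀ i' ∈ I, f i m = f i' m := by
        intro m hm i hi i' hi'
        have := Nat.find_min hall hm
        push Not at this
        exact this i hi i' hi'
      set V := I.image (fun i => f i n) with hV
      by_cases hVc : N ≤ V.card
      · -- star
        left
        -- representatives
        have hrep : ∀ v ∈ V, ∃ i ∈ I, f i n = v := by
          intro v hv
          simpa [hV] using hv
        have : Nonempty ι := ⟨i1⟩
        choose! r hr1 hr2 using hrep
        have hrinj : Set.InjOn r (V : Set ℕ) := by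
          intro v hv w hw h
          rw [← hr2 v hv, ← hr2 w hw, h]
        refine ⟨V.image r, ?_, ?_, ?_⟩
        · intro i hi
          obtain ⟨v, hv, rfl⟩ := Finset.mem_image.1 hi
          exact hr1 v hv
        · rw [Finset.card_image_of_injOn hrinj]
          exact hVc
        · apply b1_star _ f n
          · intro i hi i' hi' m hm
            obtain ⟨v, hv, rfl⟩ := Finset.mem_image.1 hi
            obtain ⟨w, hw, rfl⟩ := Finset.mem_image.1 hi'
            exact hmin m hm _ (hr1 v hv) _ (hr1 w hw)
          · intro i hi i' hi' h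
            obtain ⟨v, hv, rfl⟩ := Finset.mem_image.1 hi
            obtain ⟨w, hw, rfl⟩ := Finset.mem_image.1 hi'
            rw [hr2 v hv, hr2 w hw] at h
            rw [h]
      · push Not at hVc
        have hpig : ∃ v ∈ V, R ≤ (I.filter (fun i => f i n = v)).card := by
          by_contra hcon
          push Not at hcon
          have h1 : I.card ≤ V.card * R := by
            rw [Finset.card_eq_sum_card_image (fun i => f i n) I]
            calc ∑ v ∈ I.image (fun i => f i n), (I.filter (fun i => f i n = v)).card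
                ≤ ∑ v ∈ V, R := Finset.sum_le_sum fun v hv => (hcon v hv).le
              _ = V.card * R := by simp
          have h2 : V.card * R ≤ N * R := Nat.mul_le_mul_right _ hVc.le
          have h3 : 0 < N := by omega
          omega
        obtain ⟨v, hv, hvR⟩ := hpig
        have hother : ∃ i ∈ I, f i n ≠ v := by
          by_contra hcon
          push Not at hcon
          exact hne ((hcon i1 hi1).trans (hcon i2 hi2).symm)
        obtain ⟨i3, hi3, hi3v⟩ := hother
        rcases hR _ f hvR with ⟨J, hJ, hJN, π, hπ⟩ | ⟨J, hJ, hJk, i₀, hi₀, d, hd, hdinj⟩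
        · exact Or.inl ⟨J, hJ.trans (Finset.filter_subset _ _), hJN, π, hπ⟩
        · right
          have hi₀' := Finset.mem_filter.1 hi₀
          have hJ' : ∀ i ∈ J, i ∈ I ∧ f i n = v := fun i hi => Finset.mem_filter.1 (hJ hi)
          have hi3J : i3 ∉ J := fun h => hi3v (hJ' i3 h).2
          have hdn : ∀ i ∈ J, n < d i := by
            intro i hi
            by_contra hcon
            push Not at hcon
            apply (hd i hi).2
            rcases lt_or_eq_of_le hcon with h | h
            · exact hmin _ h _ (hJ' i hi).1 _ hi₀'.1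
            · rw [h, (hJ' i hi).2, hi₀'.2]
          refine ⟨insert i3 J, ?_, ?_, i₀, hi₀'.1, fun i => if i = i3 then n else d i, ?_, ?_⟩
          · intro i hi
            rcases Finset.mem_insert.1 hi with rfl | hi
            · exact hi3
            · exact (hJ' i hi).1
          · rw [Finset.card_insert_of_notMem hi3J, hJk]
          · intro i hi
            rcases Finset.mem_insert.1 hi with rfl | hi
            · simp only [if_true]
              refine ⟨fun m hm => hmin m hm _ hi3 _ hi₀'.1, ?_⟩
              rw [hi₀'.2]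
              exact hi3v
            · have hne3 : i ≠ i3 := fun h => hi3J (h ▸ hi)
              simp only [if_neg hne3]
              exact hd i hi
          · intro i hi i' hi' h
            rcases Finset.mem_insert.1 hi with rfl | hi
            · rcases Finset.mem_insert.1 hi' with rfl | hi'
              · rfl
              · exfalso
                have hne3 : i' ≠ i := fun h => hi3J (h ▸ hi')
                simp only [if_true, if_neg hne3] at h
                have := hdn i' hi'
                omega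
            · have hne3 : i ≠ i3 := fun h => hi3J (h ▸ hi)
              by_cases hi3' : i' = i3
              · exfalso
                simp only [hi3', if_true, if_neg hne3] at h
                have := hdn i hi
                omega
              · have hi'' : i' ∈ J := (Finset.mem_insert.1 hi').resolve_left hi3'
                simp only [if_neg hne3, if_neg hi3'] at h
                exact hdinj i hi i' hi'' h

/-- B1: among many functions there are many which are predicted by one predictor with at most one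
error each (comb or star in the tree of the functions). -/
theorem comb (N : ℕ) : ∃ R : ℕ, ∀ {ι : Type} (I : Finset ι) (f : ι → ℕ → ℕ), R ≤ I.card →
    ∃ J ⊆ I, N ≤ J.card ∧ ∃ π : List ℕ → ℕ, ∀ i ∈ J, OneErr π (f i) := by
  obtain ⟨R, hR⟩ := b1_step N N
  refine ⟨R, fun {ι} I f hI => ?_⟩
  rcases hR I f hI with h | ⟨J, hJ, hJk, i₀, hi₀, d, hd, hdinj⟩
  · exact h
  · exact ⟨J, hJ, hJk.ge, b1_comb J f (f i₀) d hd hdinj⟩

/-- B1: several classes simultaneously -/
theorem comb_multi (m N : ℕ) : ∃ R : ℕ, ∀ {ι : Type} (I : Finset ι) (f : ι → ℕ → ℕ → ℕ),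
    R ≤ I.card → ∃ J ⊆ I, N ≤ J.card ∧ ∃ π : ℕ → List ℕ → ℕ, ∀ i ∈ J, ∀ j < m,
      OneErr (π j) (f i j) := by
  induction m with
  | zero => exact ⟨N, fun {ι} I f hI => ⟨I, Finset.Subset.refl _, hI, fun _ _ => 0, by simp⟩⟩
  | succ m ih =>
    obtain ⟨R, hR⟩ := ih
    obtain ⟨R', hR'⟩ := comb R
    refine ⟨R', fun {ι} I f hI => ?_⟩
    obtain ⟨J, hJ, hJR, π, hπ⟩ := hR' I (fun i => f i m) hI
    obtain ⟨J', hJ', hJN, π', hπ'⟩ := hR J f hJR
    refine ⟨J', hJ'.trans hJ, hJN, fun j => if j = m then π else π' j, ?_⟩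
    intro i hi j hj
    by_cases hjm : j = m
    · subst hjm
      simp only [if_true]
      exact hπ i (hJ' hi)
    · simp only [if_neg hjm]
      exact hπ' i hi j (by omega)

end Pool.Agent.Lib_helper27.R
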