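import Pool.Agent.Lib_helper27.R.Defs

/-!
# Blocks B4 and B4b: counting strings
-/

set_option autoImplicit false

namespace Pool.Agent.Lib_helper27.R

open Finset Classical

/-! ### Independence -/

/-- set the coordinates in `P` to `false` -/
noncomputable def b4_zero {α : Type} (P : Finset α) (y : α → Bool) : α → Bool :=
  fun p => if p ∈ P then false else y p

lemma b4_equiv {α : Type} [Fintype α] [DecidableEq α] (P : Finset α) (Q : (α → Bool) → Prop)
    [DecidablePred Q] [DecidablePred (fun y : α → Bool => Q y ∧ ∀ p ∈ P, y p = false)]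
    (hQ : ∀ y y' : α → Bool, (∀ p, p ∉ P → y p = y' p) → (Q y ↔ Q y')) :
    (univ.filter Q).card =
      2 ^ P.card * (univ.filter (fun y : α → Bool => Q y ∧ ∀ p ∈ P, y p = false)).card := by
  have e : {y : α → Bool // Q y} ≃
      (P → Bool) × {y : α → Bool // Q y ∧ ∀ p ∈ P, y p = false} :=
    { toFun := fun y => (fun p => y.1 p.1, ⟨b4_zero P y.1, by
        refine ⟨(hQ _ _ ?_).1 y.2, ?_⟩
        · intro p hp
          simp [b4_zero, hp]
        · intro p hp
          simp [b4_zero, hp]⟩)
      invFun := fun z => ⟨fun p => if h : p ∈ P then z.1 ⟨p, h⟩ else z.2.1 p, by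
        refine (hQ _ _ ?_).1 z.2.2.1
        intro p hp
        simp [hp]⟩
      left_inv := by
        intro y
        apply Subtype.ext
        funext p
        by_cases hp : p ∈ P
        · simp [hp]
        · simp [hp, b4_zero]
      right_inv := by
        rintro ⟨g, y, hy⟩
        refine Prod.ext ?_ ?_
        · funext p
          simp [p.2]
        · apply Subtype.ext
          funext p
          by_cases hp : p ∈ P
          · simp [hp, b4_zero, hy.2 p hp]
          · simp [hp, b4_zero] }
  have h1 := Fintype.card_congr e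
  rw [Fintype.card_prod, Fintype.card_fun, Fintype.card_bool, Fintype.card_coe,
    Fintype.card_subtype, Fintype.card_subtype] at h1
  exact h1

lemma b4_indep {α κ : Type} [Fintype α] [DecidableEq α] (n : ℕ) (P : κ → Finset α)
    (I : Finset κ)
    (hP : ∀ i ∈ I, (P i).card = n) (hd : ∀ i ∈ I, ∀ i' ∈ I, i ≠ i' → Disjoint (P i) (P i')) :
    ((univ.filter (fun y : α → Bool => ∀ i ∈ I, ¬ ∀ p ∈ P i, y p = false)).card : ℝ) =
      2 ^ Fintype.card α * (1 - (2 : ℝ)⁻¹ ^ n) ^ I.card := by
  induction I using Finset.induction_on with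
  | empty => simp
  | insert a I ha ih =>
    have ih' := ih (fun i hi => hP i (mem_insert_of_mem hi))
      (fun i hi i' hi' => hd i (mem_insert_of_mem hi) i' (mem_insert_of_mem hi'))
    set Q : (α → Bool) → Prop := fun y => ∀ i ∈ I, ¬ ∀ p ∈ P i, y p = false with hQdef
    have hQ : ∀ y y' : α → Bool, (∀ p, p ∉ P a → y p = y' p) → (Q y ↔ Q y') := by
      intro y y' h
      have : ∀ i ∈ I, ∀ p ∈ P i, y p = y' p := by
        intro i hi p hp
        apply h
        intro hpa
        have hne : a ≠ i := fun e => ha (e ▸ hi)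
        exact (Finset.disjoint_left.1 (hd a (mem_insert_self _ _) i (mem_insert_of_mem hi) hne)
          hpa) hp
      constructor
      · intro hy i hi hz
        exact hy i hi fun p hp => (this i hi p hp).trans (hz p hp)
      · intro hy i hi hz
        exact hy i hi fun p hp => (this i hi p hp).symm.trans (hz p hp)
    have h1 := b4_equiv (P a) Q hQ
    rw [hP a (mem_insert_self _ _)] at h1
    have h2 : (univ.filter Q).card =
        (univ.filter (fun y : α → Bool => Q y ∧ ∀ p ∈ P a, y p = false)).card +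
        (univ.filter (fun y : α → Bool => Q y ∧ ¬ ∀ p ∈ P a, y p = false)).card := by
      rw [← Finset.card_filter_add_card_filter_not (s := univ.filter Q)
        (fun y : α → Bool => ∀ p ∈ P a, y p = false)]
      simp only [Finset.filter_filter]
    have h3 : (univ.filter (fun y : α → Bool => ∀ i ∈ insert a I, ¬ ∀ p ∈ P i, y p = false)) =
        (univ.filter (fun y : α → Bool => Q y ∧ ¬ ∀ p ∈ P a, y p = false)) := by
      ext y
      simp only [mem_filter, mem_univ, true_and, hQdef, mem_insert]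
      constructor
      · intro h
        exact ⟨fun i hi => h i (Or.inr hi), h a (Or.inl rfl)⟩
      · rintro ⟨h, h'⟩ i (rfl | hi)
        · exact h'
        · exact h i hi
    rw [h3, card_insert_of_notMem ha, pow_succ, ← mul_assoc, ← ih']
    have h4 : ((univ.filter Q).card : ℝ) =
        2 ^ n * (univ.filter (fun y : α → Bool => Q y ∧ ∀ p ∈ P a, y p = false)).card := by
      exact_mod_cast h1
    have h5 : ((univ.filter Q).card : ℝ) =
        (univ.filter (fun y : α → Bool => Q y ∧ ∀ p ∈ P a, y p = false)).card +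
        (univ.filter (fun y : α → Bool => Q y ∧ ¬ ∀ p ∈ P a, y p = false)).card := by
      exact_mod_cast h2
    have h6 : (2 : ℝ)⁻¹ ^ n * 2 ^ n = 1 := by
      rw [← mul_pow]; norm_num
    have h7 : ((univ.filter (fun y : α → Bool => Q y ∧ ∀ p ∈ P a, y p = false)).card : ℝ) =
        (univ.filter Q).card * (2 : ℝ)⁻¹ ^ n := by
      rw [h4]
      linear_combination (-((univ.filter (fun y : α → Bool =>
        Q y ∧ ∀ p ∈ P a, y p = false)).card : ℝ)) * h6
    linarith

/-! ### Strings -/

/-- strings of length `L` which extend `t` and no element of `T` -/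
noncomputable def b4_cyl (L : ℕ) (t : List Bool) (T : Finset (List Bool)) :
    Finset (Fin L → Bool) :=
  univ.filter (fun x => t <+: List.ofFn x ∧ ∀ s ∈ T, ¬ s <+: List.ofFn x)

lemma b4_prefix_snoc {s u : List Bool} {b : Bool} (h : s.length ≤ u.length) :
    s <+: u ++ [b] ↔ s <+: u := by
  rw [List.prefix_concat_iff]
  constructor
  · rintro (h1 | h1)
    · exfalso
      rw [h1] at h
      simp at h
    · exact h1
  · exact Or.inr

lemma b4_ofFn_snoc {L : ℕ} (x : Fin L → Bool) (b : Bool) :
    List.ofFn (Fin.snoc (α := fun _ => Bool) x b : Fin (L + 1) → Bool) = List.ofFn x ++ [b] := by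
  rw [List.ofFn_succ']
  simp

lemma b4_cyl_succ (L : ℕ) (t : List Bool) (T : Finset (List Bool)) (ht : t.length ≤ L)
    (hT : ∀ s ∈ T, s.length ≤ L) : (b4_cyl (L + 1) t T).card = 2 * (b4_cyl L t T).card := by
  have h1 : (b4_cyl (L + 1) t T).card = ((b4_cyl L t T) ×ˢ (univ : Finset Bool)).card := by
    symm
    apply Finset.card_bij (fun z _ => (Fin.snoc (α := fun _ => Bool) z.1 z.2 : Fin (L + 1) → Bool))
    · rintro ⟨x, b⟩ hz
      have hx := (Finset.mem_filter.1 (Finset.mem_product.1 hz).1).2
      refine Finset.mem_filter.2 ⟨mem_univ _, ?_⟩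
      simp only
      rw [b4_ofFn_snoc]
      refine ⟨(b4_prefix_snoc (by simpa using ht)).2 hx.1, fun s hs => ?_⟩
      rw [b4_prefix_snoc (by simpa using hT s hs)]
      exact hx.2 s hs
    · rintro ⟨x, b⟩ _ ⟨x', b'⟩ _ h
      simp only at h
      have h2 := congrArg (fun f : Fin (L + 1) → Bool => Fin.init (α := fun _ => Bool) f) h
      have h3 := congrArg (fun f : Fin (L + 1) → Bool => f (Fin.last L)) h
      simp at h2 h3
      rw [h2, h3]
    · intro w hw
      have hw' := (Finset.mem_filter.1 hw).2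
      have hw2 : w = (Fin.snoc (α := fun _ => Bool) (Fin.init (α := fun _ => Bool) w)
          (w (Fin.last L)) : Fin (L + 1) → Bool) := (Fin.snoc_init_self w).symm
      refine ⟨(Fin.init (α := fun _ => Bool) w, w (Fin.last L)), ?_, hw2.symm⟩
      refine Finset.mem_product.2 ⟨Finset.mem_filter.2 ⟨mem_univ _, ?_⟩, mem_univ _⟩
      rw [hw2, b4_ofFn_snoc] at hw'
      refine ⟨(b4_prefix_snoc (by simpa using ht)).1 hw'.1, fun s hs => ?_⟩
      rw [← b4_prefix_snoc (b := w (Fin.last L)) (by simpa using hT s hs)]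
      exact hw'.2 s hs
  rw [h1, Finset.card_product]
  simp [mul_comm]

/-- the bound -/
def b4_M (t : List Bool) (T : Finset (List Bool)) : ℕ := t.length + ∑ s ∈ T, s.length

/-- the measure -/
noncomputable def b4_m (t : List Bool) (T : Finset (List Bool)) : ℝ :=
  ((b4_cyl (b4_M t T) t T).card : ℝ) / 2 ^ (b4_M t T)

lemma b4_cyl_add (L k : ℕ) (t : List Bool) (T : Finset (List Bool)) (ht : t.length ≤ L)
    (hT : ∀ s ∈ T, s.length ≤ L) :
    ((b4_cyl (L + k) t T).card : ℝ) / 2 ^ (L + k) = ((b4_cyl L t T).card : ℝ) / 2 ^ L := by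
  induction k with
  | zero => rfl
  | succ k ih =>
    rw [← ih, ← add_assoc, b4_cyl_succ (L + k) t T (by omega) (fun s hs => by
      have := hT s hs; omega), pow_succ]
    push_cast
    field_simp

lemma b4_m_eq (L : ℕ) (t : List Bool) (T : Finset (List Bool)) (ht : t.length ≤ L)
    (hT : ∀ s ∈ T, s.length ≤ L) : b4_m t T = ((b4_cyl L t T).card : ℝ) / 2 ^ L := by
  have h1 : ∀ s ∈ T, s.length ≤ b4_M t T := by
    intro s hs
    have := Finset.single_le_sum (f := fun s : List Bool => s.length) (fun _ _ => Nat.zero_le _) hs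
    unfold b4_M
    omega
  have h2 : t.length ≤ b4_M t T := by unfold b4_M; omega
  rw [b4_m, ← b4_cyl_add (b4_M t T) L t T h2 h1, ← b4_cyl_add L (b4_M t T) t T ht hT,
    add_comm L (b4_M t T)]

lemma b4_m_nonneg (t : List Bool) (T : Finset (List Bool)) : 0 ≤ b4_m t T := by
  unfold b4_m
  positivity

lemma b4_m_mono (t : List Bool) {T T' : Finset (List Bool)} (h : T ⊆ T') :
    b4_m t T' ≤ b4_m t T := by
  have h1 : ∀ s ∈ T', s.length ≤ b4_M t T' := by
    intro s hs
    have := Finset.single_le_sum (f := fun s : List Bool => s.length) (fun _ _ => Nat.zero_le _) hs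
    unfold b4_M
    omega
  have h2 : t.length ≤ b4_M t T' := by unfold b4_M; omega
  rw [b4_m_eq (b4_M t T') t T' h2 h1, b4_m_eq (b4_M t T') t T h2 (fun s hs => h1 s (h hs))]
  apply div_le_div_of_nonneg_right _ (by positivity)
  exact_mod_cast Finset.card_le_card (by
    intro x hx
    have hx' := (Finset.mem_filter.1 hx).2
    exact Finset.mem_filter.2 ⟨mem_univ _, hx'.1, fun s hs => hx'.2 s (h hs)⟩)

lemma b4_m_empty (t : List Bool) : b4_m t ∅ = (2 : ℝ)⁻¹ ^ t.length := by
  rw [b4_m_eq t.length t ∅ le_rfl (by simp)]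
  have h1 : b4_cyl t.length t ∅ = {fun i => t.get i} := by
    ext x
    simp only [b4_cyl, mem_filter, mem_univ, true_and, notMem_empty, false_implies,
      implies_true, and_true, mem_singleton]
    constructor
    · intro h
      have h2 : t = List.ofFn x := h.eq_of_length (by simp)
      apply List.ofFn_injective
      rw [← h2, List.ofFn_get]
    · rintro rfl
      rw [List.ofFn_get]
  rw [h1, card_singleton]
  simp

lemma b4_restrict {L L' : ℕ} (h : L ≤ L') (x : Fin L' → Bool) :
    List.ofFn (fun i : Fin L => x (Fin.castLE h i)) <+: List.ofFn x := by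
  rw [List.prefix_iff_eq_take]
  apply List.ext_getElem
  · simp [h]
  · intro i h1 h2
    simp [Fin.castLE]

lemma b4_m_sum (L : ℕ) (t : List Bool) (T : Finset (List Bool)) (ht : t.length ≤ L) :
    b4_m t T = ∑ y ∈ univ.filter (fun y : Fin L → Bool => t <+: List.ofFn y),
      b4_m (List.ofFn y) T := by
  set L' := L + ∑ s ∈ T, s.length with hL'
  have hLL' : L ≤ L' := by omega
  have hT : ∀ s ∈ T, s.length ≤ L' := by
    intro s hs
    have := Finset.single_le_sum (f := fun s : List Bool => s.length) (fun _ _ => Nat.zero_le _) hs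
    omega
  rw [b4_m_eq L' t T (by omega) hT]
  have h1 : ∀ y : Fin L → Bool, b4_m (List.ofFn y) T =
      ((b4_cyl L' (List.ofFn y) T).card : ℝ) / 2 ^ L' := fun y =>
    b4_m_eq L' (List.ofFn y) T (by simpa using hLL') hT
  simp only [h1]
  rw [← Finset.sum_div]
  congr 1
  have h2 : (b4_cyl L' t T).card = ∑ y ∈ univ.filter (fun y : Fin L → Bool => t <+: List.ofFn y),
      (b4_cyl L' (List.ofFn y) T).card := by
    rw [Finset.card_eq_sum_card_fiberwise
      (f := fun (x : Fin L' → Bool) => fun i : Fin L => x (Fin.castLE hLL' i))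
      (t := univ.filter (fun y : Fin L → Bool => t <+: List.ofFn y))]
    · apply Finset.sum_congr rfl
      intro y hy
      have hy' := (Finset.mem_filter.1 hy).2
      congr 1
      ext x
      simp only [b4_cyl, mem_filter, mem_univ, true_and]
      constructor
      · rintro ⟨⟨h3, h4⟩, rfl⟩
        exact ⟨b4_restrict hLL' x, h4⟩
      · rintro ⟨h3, h4⟩
        refine ⟨⟨hy'.trans h3, h4⟩, ?_⟩
        apply List.ofFn_injective
        have h5 := b4_restrict hLL' x
        exact (List.prefix_of_prefix_length_le h5 h3 (by simp)).eq_of_length (by simp)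
    · intro x hx
      have hx' := (Finset.mem_filter.1 (Finset.mem_coe.1 hx)).2
      refine Finset.mem_coe.2 (Finset.mem_filter.2 ⟨mem_univ _, ?_⟩)
      exact List.prefix_of_prefix_length_le hx'.1 (b4_restrict hLL' x) (by simpa using ht)
  rw [h2]
  push_cast
  rfl

/-! ### The positions -/

/-- the places `pr n i j`, `j < n`, as a set of indices -/
noncomputable def b4_P (L n i : ℕ) : Finset (Fin L) :=
  univ.filter (fun p => ∃ j < n, p.1 = pr n i j)

lemma b4_pr_inj {n i j n' i' j' : ℕ} (h : pr n i j = pr n' i' j') : n = n' ∧ i = i' ∧ j = j' := by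
  unfold pr at h
  rw [Nat.pair_eq_pair, Nat.pair_eq_pair] at h
  tauto

lemma b4_P_card (L n i : ℕ) (h : ∀ j < n, pr n i j < L) : (b4_P L n i).card = n := by
  have h1 : b4_P L n i = (Finset.univ : Finset (Fin n)).image
      (fun j => (⟨pr n i j.1, h j.1 j.2⟩ : Fin L)) := by
    ext p
    simp only [b4_P, mem_filter, mem_univ, true_and, mem_image]
    constructor
    · rintro ⟨j, hj, h2⟩
      exact ⟨⟨j, hj⟩, Fin.ext h2.symm⟩
    · rintro ⟨j, rfl⟩
      exact ⟨j.1, j.2, rfl⟩
  rw [h1, Finset.card_image_of_injective]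
  · simp
  · intro j j' hjj
    have := congrArg Fin.val hjj
    exact Fin.ext (b4_pr_inj this).2.2

lemma b4_P_disj (L n i n' i' : ℕ) (h : i ≠ i') : Disjoint (b4_P L n i) (b4_P L n' i') := by
  rw [Finset.disjoint_left]
  intro p hp hp'
  obtain ⟨j, _, h1⟩ := (Finset.mem_filter.1 hp).2
  obtain ⟨j', _, h2⟩ := (Finset.mem_filter.1 hp').2
  exact h (b4_pr_inj (h1.symm.trans h2)).2.1

lemma b4_Gr_iff (L n i : ℕ) (h : ∀ j < n, pr n i j < L) (y : Fin L → Bool) :
    Gr n i (List.ofFn y) ↔ ∀ p ∈ b4_P L n i, y p = false := by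
  unfold Gr
  constructor
  · intro h1 p hp
    obtain ⟨j, hj, h2⟩ := (Finset.mem_filter.1 hp).2
    have h3 := h1 j hj
    rw [← h2, List.getElem?_ofFn] at h3
    simpa using h3
  · intro h1 j hj
    rw [List.getElem?_ofFn]
    have h2 := h1 ⟨pr n i j, h j hj⟩ (Finset.mem_filter.2 ⟨mem_univ _, j, hj, rfl⟩)
    simp [h j hj, h2]

/-- B4: the measure of `[t] \ ⋃ {[s] : s ∈ T}` -/
theorem exists_meas : ∃ m : List Bool → Finset (List Bool) → ℝ,
    (∀ T : Finset (List Bool), ∑ s ∈ T, (2 : ℝ)⁻¹ ^ s.length ≤ 1 / 2 → 1 / 2 ≤ m [] T) ∧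
    (∀ t T s, s ∈ T → s <+: t → m t T ≤ 0) ∧
    (∀ t T T', T ⊆ T' → m t T' ≤ m t T) ∧
    (∀ (n : ℕ) (I : Finset ℕ) (t : List Bool) (T : Finset (List Bool)) (L : ℕ) (δ : ℝ), 0 ≤ δ →
      t.length ≤ L → (∀ i ∈ I, ∀ j < n, pr n i j < L) →
      (∀ t' : List Bool, t'.length = L → t <+: t' → (∃ i ∈ I, Gr n i t') → m t' T ≤ δ) →
      m t T ≤ 2 ^ L * δ + (1 - (2 : ℝ)⁻¹ ^ n) ^ I.card) := by
  refine ⟨b4_m, ?_, ?_, fun t T T' h => b4_m_mono t h, ?_⟩
  · intro T hT
    set L := b4_M [] T with hL
    have h1 : ∀ s ∈ T, s.length ≤ L := by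
      intro s hs
      have := Finset.single_le_sum (f := fun s : List Bool => s.length)
        (fun _ _ => Nat.zero_le _) hs
      rw [hL]
      unfold b4_M
      omega
    rw [b4_m_eq L [] T (by simp) h1]
    have h2 : (univ : Finset (Fin L → Bool)) ⊆ b4_cyl L [] T ∪ T.biUnion (fun s => b4_cyl L s ∅) := by
      intro x _
      rw [mem_union]
      by_cases hx : ∀ s ∈ T, ¬ s <+: List.ofFn x
      · left
        exact Finset.mem_filter.2 ⟨mem_univ _, List.nil_prefix, hx⟩
      · right
        push Not at hx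
        obtain ⟨s, hs, hsx⟩ := hx
        exact Finset.mem_biUnion.2 ⟨s, hs, Finset.mem_filter.2 ⟨mem_univ _, hsx, by simp⟩⟩
    have h3 : (2 : ℝ) ^ L ≤ (b4_cyl L [] T).card + ∑ s ∈ T, ((b4_cyl L s ∅).card : ℝ) := by
      have h4 := (Finset.card_le_card h2).trans ((Finset.card_union_le _ _).trans
        (Nat.add_le_add_left Finset.card_biUnion_le _))
      have h5 : (univ : Finset (Fin L → Bool)).card = 2 ^ L := by simp
      rw [h5] at h4
      exact_mod_cast h4
    have h6 : ∑ s ∈ T, ((b4_cyl L s ∅).card : ℝ) = 2 ^ L * ∑ s ∈ T, (2 : ℝ)⁻¹ ^ s.length := by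
      rw [Finset.mul_sum]
      apply Finset.sum_congr rfl
      intro s hs
      have h7 := b4_m_eq L s ∅ (h1 s hs) (by simp)
      rw [b4_m_empty] at h7
      rw [h7]
      field_simp
    rw [h6] at h3
    rw [le_div_iff₀ (by positivity)]
    have h8 : (0 : ℝ) < 2 ^ L := by positivity
    nlinarith [mul_le_mul_of_nonneg_left hT h8.le]
  · intro t T s hs hst
    unfold b4_m
    have h1 : b4_cyl (b4_M t T) t T = ∅ := by
      rw [Finset.eq_empty_iff_forall_notMem]
      intro x hx
      have hx' := (Finset.mem_filter.1 hx).2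
      exact hx'.2 s hs (hst.trans hx'.1)
    rw [h1]
    simp
  · intro n I t T L δ hδ ht hI h
    rw [b4_m_sum L t T ht]
    rw [← Finset.sum_filter_add_sum_filter_not _
      (fun y : Fin L → Bool => ∃ i ∈ I, Gr n i (List.ofFn y))]
    apply add_le_add
    · calc ∑ y ∈ (univ.filter (fun y : Fin L → Bool => t <+: List.ofFn y)).filter
            (fun y : Fin L → Bool => ∃ i ∈ I, Gr n i (List.ofFn y)), b4_m (List.ofFn y) T
          ≤ ∑ y ∈ (univ.filter (fun y : Fin L → Bool => t <+: List.ofFn y)).filter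
            (fun y : Fin L → Bool => ∃ i ∈ I, Gr n i (List.ofFn y)), δ := by
            apply Finset.sum_le_sum
            intro y hy
            rw [Finset.filter_filter] at hy
            have hy' := (Finset.mem_filter.1 hy).2
            exact h _ (by simp) hy'.1 hy'.2
        _ = (((univ.filter (fun y : Fin L → Bool => t <+: List.ofFn y)).filter
            (fun y : Fin L → Bool => ∃ i ∈ I, Gr n i (List.ofFn y))).card : ℝ) * δ := by
            rw [Finset.sum_const, nsmul_eq_mul]
        _ ≤ 2 ^ L * δ := by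
            apply mul_le_mul_of_nonneg_right _ hδ
            have h1 := Finset.card_le_univ ((univ.filter (fun y : Fin L → Bool =>
              t <+: List.ofFn y)).filter (fun y : Fin L → Bool => ∃ i ∈ I, Gr n i (List.ofFn y)))
            have h2 : Fintype.card (Fin L → Bool) = 2 ^ L := by simp
            rw [h2] at h1
            exact_mod_cast h1
    · have hsub : (univ.filter (fun y : Fin L → Bool => t <+: List.ofFn y)).filter
            (fun y : Fin L → Bool => ¬ ∃ i ∈ I, Gr n i (List.ofFn y)) ⊆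
          univ.filter (fun y : Fin L → Bool => ∀ i ∈ I, ¬ ∀ p ∈ b4_P L n i, y p = false) := by
        intro y hy
        have hy' := (Finset.mem_filter.1 hy).2
        refine Finset.mem_filter.2 ⟨mem_univ _, fun i hi hz => hy' ⟨i, hi, ?_⟩⟩
        exact (b4_Gr_iff L n i (hI i hi) y).2 hz
      have hcard := b4_indep n (fun i => b4_P L n i) I (fun i hi => b4_P_card L n i (hI i hi))
        (fun i _ i' _ hne => b4_P_disj L n i n i' hne)
      rw [Fintype.card_fin] at hcard
      calc ∑ y ∈ (univ.filter (fun y : Fin L → Bool => t <+: List.ofFn y)).filter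
            (fun y : Fin L → Bool => ¬ ∃ i ∈ I, Gr n i (List.ofFn y)), b4_m (List.ofFn y) T
          ≤ ∑ y ∈ (univ.filter (fun y : Fin L → Bool => t <+: List.ofFn y)).filter
            (fun y : Fin L → Bool => ¬ ∃ i ∈ I, Gr n i (List.ofFn y)), (2 : ℝ)⁻¹ ^ L := by
            apply Finset.sum_le_sum
            intro y _
            have h3 := b4_m_mono (List.ofFn y) (Finset.empty_subset T)
            rw [b4_m_empty] at h3
            simpa using h3
        _ = (((univ.filter (fun y : Fin L → Bool => t <+: List.ofFn y)).filter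
            (fun y : Fin L → Bool => ¬ ∃ i ∈ I, Gr n i (List.ofFn y))).card : ℝ) *
              (2 : ℝ)⁻¹ ^ L := by
            rw [Finset.sum_const, nsmul_eq_mul]
        _ ≤ (2 ^ L * (1 - (2 : ℝ)⁻¹ ^ n) ^ I.card) * (2 : ℝ)⁻¹ ^ L := by
            apply mul_le_mul_of_nonneg_right _ (by positivity)
            rw [← hcard]
            refine le_trans ((Nat.cast_le (α := ℝ)).2 (Finset.card_le_card hsub)) (le_of_eq ?_)
            congr!
        _ = (1 - (2 : ℝ)⁻¹ ^ n) ^ I.card := by
            have h6 : (2 : ℝ) ^ L * (2 : ℝ)⁻¹ ^ L = 1 := by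
              rw [← mul_pow]; norm_num
            linear_combination ((1 - (2 : ℝ)⁻¹ ^ n) ^ I.card) * h6

end Pool.Agent.Lib_helper27.R
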